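import Pool.Agent.Helper10.Qc.Stmts

/-!
Module CRD of the project Qc (helper10): coordinates.
-/

set_option autoImplicit false

namespace Pool.Agent.Helper10.Qc

open Pool.Agent.Helper19.Qh Pool.Agent.Helper19.Qc

theorem crd_herm (p : Pt 1) (c : ℕ) :
    herm (vec p) (wv c) = p.1 + p.2 0 * star (hf (cB c)) + star (hf (cA c)) := by
  simp only [herm, vec, wv, hin1, e1_apply, star_one, mul_one, one_mul]

theorem crd_hf0 (x : Fin 4 → ℤ) : (hf x).re = (x 0 : ℝ) / 2 := rfl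
theorem crd_hf1 (x : Fin 4 → ℤ) : (hf x).imI = (x 1 : ℝ) / 2 := rfl
theorem crd_hf2 (x : Fin 4 → ℤ) : (hf x).imJ = (x 2 : ℝ) / 2 := rfl
theorem crd_hf3 (x : Fin 4 → ℤ) : (hf x).imK = (x 3 : ℝ) / 2 := rfl

theorem crd_zc0 (z0 z1 z2 z3 : ℕ) : (zc z0 z1 z2 z3).re = ((z0 : ℝ) - 8) / 16 := rfl
theorem crd_zc1 (z0 z1 z2 z3 : ℕ) : (zc z0 z1 z2 z3).imI = ((z1 : ℝ) - 8) / 16 := rfl
theorem crd_zc2 (z0 z1 z2 z3 : ℕ) : (zc z0 z1 z2 z3).imJ = ((z2 : ℝ) - 8) / 16 := rfl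
theorem crd_zc3 (z0 z1 z2 z3 : ℕ) : (zc z0 z1 z2 z3).imK = ((z3 : ℝ) - 8) / 16 := rfl

theorem crd_hgt (p : Pt 1) : hgt p = -(2 * p.1.re + ((p.2 0).re ^ 2 + (p.2 0).imI ^ 2 +
    (p.2 0).imJ ^ 2 + (p.2 0).imK ^ 2)) := by
  rw [hgt, norm_E1, q_norm_sq]

theorem crd_0 (z0 z1 z2 z3 : ℕ) (p : Pt 1) (c : ℕ) :
    32 * uC z0 z1 z2 z3 p 0 + 2 * ms (eC z0 z1 z2 z3 p) (cD z0 z1 z2 z3 c) 0 +
      cK z0 z1 z2 z3 c 0 = 2 ^ 15 * (herm (vec p) (wv c)).re := by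
  rw [crd_herm]
  simp only [uC, crd_hgt, q_norm_sq, crd_zc0, crd_zc1, crd_zc2, crd_zc3, eC, cD, cK, ms, zZ,
    crd_hf0, crd_hf1, crd_hf2, crd_hf3, cA, Matrix.cons_val_zero,
    Matrix.cons_val_one, Matrix.cons_val, Quaternion.re_add, Quaternion.re_mul,
    Quaternion.re_sub, Quaternion.imI_sub, Quaternion.imJ_sub, Quaternion.imK_sub,
    Quaternion.re_star, Quaternion.imI_star, Quaternion.imJ_star, Quaternion.imK_star]
  push_cast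
  ring

theorem crd_1 (z0 z1 z2 z3 : ℕ) (p : Pt 1) (c : ℕ) :
    32 * uC z0 z1 z2 z3 p 1 + 2 * ms (eC z0 z1 z2 z3 p) (cD z0 z1 z2 z3 c) 1 +
      cK z0 z1 z2 z3 c 1 = 2 ^ 15 * (herm (vec p) (wv c)).imI := by
  rw [crd_herm]
  simp only [uC, crd_zc0, crd_zc1, crd_zc2, crd_zc3, eC, cD, cK, ms, zZ,
    crd_hf0, crd_hf1, crd_hf2, crd_hf3, cA, Matrix.cons_val_zero,
    Matrix.cons_val_one, Matrix.cons_val, Quaternion.imI_add, Quaternion.imI_mul,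
    Quaternion.re_star, Quaternion.imI_star, Quaternion.imJ_star, Quaternion.imK_star]
  push_cast
  ring

theorem crd_2 (z0 z1 z2 z3 : ℕ) (p : Pt 1) (c : ℕ) :
    32 * uC z0 z1 z2 z3 p 2 + 2 * ms (eC z0 z1 z2 z3 p) (cD z0 z1 z2 z3 c) 2 +
      cK z0 z1 z2 z3 c 2 = 2 ^ 15 * (herm (vec p) (wv c)).imJ := by
  rw [crd_herm]
  simp only [uC, crd_zc0, crd_zc1, crd_zc2, crd_zc3, eC, cD, cK, ms, zZ,
    crd_hf0, crd_hf1, crd_hf2, crd_hf3, cA, Matrix.cons_val_zero,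
    Matrix.cons_val_one, Matrix.cons_val, Quaternion.imJ_add, Quaternion.imJ_mul,
    Quaternion.re_star, Quaternion.imI_star, Quaternion.imJ_star, Quaternion.imK_star]
  push_cast
  ring

theorem crd_3 (z0 z1 z2 z3 : ℕ) (p : Pt 1) (c : ℕ) :
    32 * uC z0 z1 z2 z3 p 3 + 2 * ms (eC z0 z1 z2 z3 p) (cD z0 z1 z2 z3 c) 3 +
      cK z0 z1 z2 z3 c 3 = 2 ^ 15 * (herm (vec p) (wv c)).imK := by
  rw [crd_herm]
  simp only [uC, crd_zc0, crd_zc1, crd_zc2, crd_zc3, eC, cD, cK, ms, zZ,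
    crd_hf0, crd_hf1, crd_hf2, crd_hf3, cA, Matrix.cons_val_zero,
    Matrix.cons_val_one, Matrix.cons_val, Quaternion.imK_add, Quaternion.imK_mul,
    Quaternion.re_star, Quaternion.imI_star, Quaternion.imJ_star, Quaternion.imK_star]
  push_cast
  ring

theorem st_CRD : ST_CRD := by
  intro z0 z1 z2 z3 p
  constructor
  · simp only [HH, uC, eC, crd_hgt, q_norm_sq, crd_zc0, crd_zc1, crd_zc2, crd_zc3, Matrix.cons_val_zero,
      Matrix.cons_val_one, Matrix.cons_val, Quaternion.re_sub, Quaternion.imI_sub,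
      Quaternion.imJ_sub, Quaternion.imK_sub]
    ring
  · intro c _
    rw [Qv, crd_0, crd_1, crd_2, crd_3, q_norm_sq]
    ring

end Pool.Agent.Helper10.Qc
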